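import Mathlib

/-!
# In a rational function field there are no divisor classes of finite order

Let `K` be a field with `K ≃ k(X)` over `k`. If the divisor of `κ ≠ 0` is divisible by `p`, then `κ` has the
divisor of a `p`-th power.
-/

set_option autoImplicit false

open Polynomial IsDedekindDomain WithZero

namespace Pool.Agent.NH20.GHR

theorem pow_log {n : ℕ} {a : ℤᵐ⁰} {c : ℕ} (h : exp (-(c : ℤ)) = a ^ n) (ha : a ≠ 0) : n ∣ c := by
  have h1 : a = exp (log a) := (exp_log ha).symm
  rw [h1, ← exp_nsmul] at h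
  have h2 := exp_injective h
  have h3 : (n : ℤ) ∣ (c : ℤ) := ⟨-(log a), by
    rw [nsmul_eq_mul] at h2
    linarith⟩
  exact_mod_cast h3

variable {k K : Type} [Field k] [Field K] [Algebra k K] {p : ℕ}

/-- the main lemma, for the field of fractions of `k[X]` -/
theorem main [Algebra k[X] K] [IsScalarTower k k[X] K] [IsFractionRing k[X] K] (hp : 0 < p) (κ : K)
    (hκ : κ ≠ 0)
    (h : ∀ O : ValuationSubring K, O ≠ ⊤ → (∀ c : k, algebraMap k K c ∈ O) →
      ∃ β : K, β ≠ 0 ∧ O.valuation κ = O.valuation (β ^ p)) :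
    ∃ (c : k) (β : K), c ≠ 0 ∧ β ≠ 0 ∧ κ = algebraMap k K c * β ^ p := by
  classical
  obtain ⟨a, b, hb, hab⟩ := IsFractionRing.div_surjective (A := k[X]) κ
  have hb0 : b ≠ 0 := nonZeroDivisors.ne_zero hb
  have hbK : algebraMap k[X] K b ≠ 0 := (IsFractionRing.to_map_eq_zero_iff (K := K)).not.2 hb0
  have ha0 : a ≠ 0 := by
    rintro rfl
    apply hκ
    rw [← hab, map_zero, zero_div]
  set a' : k[X] := a * b ^ (p - 1) with ha'
  have ha'0 : a' ≠ 0 := mul_ne_zero ha0 (pow_ne_zero _ hb0)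
  have haK : algebraMap k[X] K a' = κ * (algebraMap k[X] K b) ^ p := by
    rw [ha', map_mul, map_pow, ← hab, div_mul_eq_mul_div, eq_div_iff hbK, mul_assoc, ← pow_succ,
      Nat.sub_add_cancel hp]
  have hcount : ∀ q : Associates (Ideal k[X]), Irreducible q →
      p ∣ q.count (Associates.mk (Ideal.span {a'})).factors := by
    intro q hq
    obtain ⟨I, rfl⟩ := Associates.mk_surjective q
    have hI : Irreducible I := Associates.irreducible_mk.1 hq
    have hI0 : I ≠ ⊥ := hI.ne_zero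
    let v : HeightOneSpectrum k[X] := ⟨I, (Ideal.prime_iff_isPrime hI0).1 hI.prime, hI0⟩
    let O : ValuationSubring K := (v.valuation K).valuationSubring
    have hmem : ∀ c : k, algebraMap k K c ∈ O := by
      intro c
      rw [Valuation.mem_valuationSubring_iff, IsScalarTower.algebraMap_apply k k[X] K]
      exact v.valuation_le_one _
    have htop : O ≠ ⊤ := by
      intro ht
      obtain ⟨π, hπ⟩ := v.valuation_exists_uniformizer K
      have h1 : π⁻¹ ∈ O := by
        rw [ht]
        exact ValuationSubring.mem_top _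
      rw [Valuation.mem_valuationSubring_iff, map_inv₀, hπ, ← exp_neg, neg_neg, ← exp_zero,
        exp_le_exp] at h1
      omega
    obtain ⟨β, hβ, hv⟩ := h O htop hmem
    have h2 : v.valuation K κ = v.valuation K (β ^ p) :=
      (Valuation.isEquiv_valuation_valuationSubring (v.valuation K)).eq_iff.2 hv
    have h3 : v.valuation K (algebraMap k[X] K a') = (v.valuation K (β * algebraMap k[X] K b)) ^ p := by
      rw [haK, map_mul, h2, map_pow, map_pow, map_mul, mul_pow]
    rw [v.valuation_of_algebraMap, v.intValuation_if_neg ha'0] at h3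
    refine pow_log h3 ?_
    rw [map_mul]
    exact mul_ne_zero ((Valuation.ne_zero_iff _).2 hβ) ((Valuation.ne_zero_iff _).2 hbK)
  have hne : Associates.mk (Ideal.span {a'}) ≠ 0 := by
    rw [Ne, Associates.mk_eq_zero]
    simpa using ha'0
  obtain ⟨bb, hbb⟩ := Associates.is_pow_of_dvd_count hne hcount
  obtain ⟨J, rfl⟩ := Associates.mk_surjective bb
  rw [← Associates.mk_pow, Associates.mk_eq_mk_iff_associated, associated_iff_eq] at hbb
  obtain ⟨c, hc⟩ := (IsPrincipalIdealRing.principal J).principal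
  have hc' : J = Ideal.span {c} := hc
  rw [hc', Ideal.span_singleton_pow, Ideal.span_singleton_eq_span_singleton] at hbb
  obtain ⟨u, hu⟩ := hbb.symm
  obtain ⟨r, hr, hru⟩ := Polynomial.isUnit_iff.1 u.isUnit
  have hc0 : c ≠ 0 := by
    rintro rfl
    rw [zero_pow hp.ne', zero_mul] at hu
    exact ha'0 hu.symm
  have hcK : algebraMap k[X] K c ≠ 0 := (IsFractionRing.to_map_eq_zero_iff (K := K)).not.2 hc0
  refine ⟨r, algebraMap k[X] K c / algebraMap k[X] K b, hr.ne_zero, div_ne_zero hcK hbK, ?_⟩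
  have h5 : algebraMap k[X] K (C r) = algebraMap k K r := by
    rw [IsScalarTower.algebraMap_apply k k[X] K]
    rfl
  have h6 : κ * (algebraMap k[X] K b) ^ p = algebraMap k K r * (algebraMap k[X] K c) ^ p := by
    rw [← haK, ← hu, ← hru, map_mul, map_pow, h5, mul_comm]
  rw [div_pow, ← mul_div_assoc, ← h6, mul_div_assoc, div_self (pow_ne_zero _ hbK), mul_one]

/-- the statement for the places -/
theorem places [Algebra k[X] K] [IsScalarTower k k[X] K] [IsFractionRing k[X] K] (hp : 0 < p) :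
    ∃ s : Finset Kˣ, ∀ κ : Kˣ,
      (∀ v : {O : ValuationSubring K // O ≠ ⊤ ∧ ∀ c : k, algebraMap k K c ∈ O},
        ∃ β : Kˣ, v.1.valuation (κ : K) = v.1.valuation ((β ^ p : Kˣ) : K)) →
      ∃ κ₀ ∈ s, ∃ β : Kˣ, ∀ v : {O : ValuationSubring K // O ≠ ⊤ ∧ ∀ c : k, algebraMap k K c ∈ O},
        v.1.valuation (κ : K) = v.1.valuation ((κ₀ * β ^ p : Kˣ) : K) := by
  classical
  refine ⟨{1}, fun κ h => ⟨1, Finset.mem_singleton_self _, ?_⟩⟩
  obtain ⟨c, β, hc, hβ, e⟩ := main (k := k) hp (κ : K) κ.ne_zero fun O h1 h2 => by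
    obtain ⟨β, hβ⟩ := h ⟨O, h1, h2⟩
    exact ⟨β, β.ne_zero, by rw [hβ]; push_cast; rfl⟩
  refine ⟨Units.mk0 β hβ, fun v => ?_⟩
  have h1 : v.1.valuation (algebraMap k K c) = 1 := by
    refine le_antisymm ((v.1.valuation_le_one_iff _).2 (v.2.2 c)) ?_
    have h2 := (v.1.valuation_le_one_iff _).2 (v.2.2 c⁻¹)
    rw [map_inv₀, map_inv₀] at h2
    have h3 : v.1.valuation (algebraMap k K c) ≠ 0 :=
      (Valuation.ne_zero_iff _).2 ((_root_.map_ne_zero _).2 hc)
    exact (inv_le_one₀ (zero_lt_iff.2 h3)).1 h2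
  rw [e, map_mul, h1]
  push_cast
  rw [Units.val_mk0, one_mul, one_mul]

/-- for all fields which are isomorphic to the rational function field -/
theorem finite_classes (e : Nonempty (K ≃ₐ[k] RatFunc k)) (hp : 0 < p) :
    ∃ s : Finset Kˣ, ∀ κ : Kˣ,
      (∀ v : {O : ValuationSubring K // O ≠ ⊤ ∧ ∀ c : k, algebraMap k K c ∈ O},
        ∃ β : Kˣ, v.1.valuation (κ : K) = v.1.valuation ((β ^ p : Kˣ) : K)) →
      ∃ κ₀ ∈ s, ∃ β : Kˣ, ∀ v : {O : ValuationSubring K // O ≠ ⊤ ∧ ∀ c : k, algebraMap k K c ∈ O},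
        v.1.valuation (κ : K) = v.1.valuation ((κ₀ * β ^ p : Kˣ) : K) := by
  obtain ⟨e⟩ := e
  let f : k[X] →ₐ[k] K := (e.symm : RatFunc k →ₐ[k] K).comp (Algebra.ofId k[X] (RatFunc k) |>.restrictScalars k)
  let _ : Algebra k[X] K := f.toRingHom.toAlgebra
  have : IsScalarTower k k[X] K := IsScalarTower.of_algebraMap_eq fun c => (f.commutes c).symm
  have : IsFractionRing k[X] K := by
    have := IsLocalization.isLocalization_of_algEquiv (nonZeroDivisors k[X]) (S := RatFunc k) (P := K)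
      (AlgEquiv.ofRingEquiv (f := (e.symm : RatFunc k ≃+* K)) fun x => rfl)
    exact this
  exact places hp

end Pool.Agent.NH20.GHR
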